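import Pool.Agent.helper44.MDG.Asm
import Pool.Agent.helper44.MDG.BRG2
import Pool.Agent.helper44.MDG.CPB2
import Pool.Agent.helper22.MDG.EXC

/-!
# The misère partizan domination game on paths and cycles whose runs are long

A run is a maximal piece of one colour. If all runs of a coloured path or cycle have length at least `7` (for the two
end runs of a path length `4` is enough), the winner is read off from the numbers

`α = ∑ ⌈(length + number of borders) / 3⌉` over the runs of Alice, `β` = the same sum for Bob:

the player with the smaller number wins, whoever begins, and for `α = β` the first player wins.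
-/

set_option autoImplicit false

namespace Pool.Agent.Results.MP_05a1de_lc.LongRuns

/-- `S` dominates `u`: `u` is in `S` or has a neighbour in `S`. -/
def Dominates {V : Type} (G : SimpleGraph V) (S : Finset V) (u : V) : Prop := u ∈ S ∨ ∃ w ∈ S, G.Adj u w

/-- `v` is playable when `S` is the set of the selected vertices: `v ∉ S` and the closed neighbourhood of `v` contains
a vertex which is not dominated by `S`. -/
def Playable {V : Type} (G : SimpleGraph V) (S : Finset V) (v : V) : Prop :=
  v ∉ S ∧ ∃ u, (u = v ∨ G.Adj v u) ∧ ¬ Dominates G S u

/-- The players are `true` (Alice) and `false` (Bob); `c v` is the owner of the vertex `v`. `Wins G c p m S`: the player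
`p` has a winning strategy in misère play from the position `S` (the set of the selected vertices) when the player `m` is
to move. `done`: `p` is to move and has no legal selection (so he wins); `own`: `p` is to move and has a selection after
which he has a winning strategy; `opp`: the other player `!p` is to move, has a legal selection, and `p` has a winning
strategy after each of them. -/
inductive Wins {V : Type} [DecidableEq V] (G : SimpleGraph V) (c : V → Bool) (p : Bool) :
    Bool → Finset V → Prop
  | done (S : Finset V) : (∀ v, c v = p → ¬ Playable G S v) → Wins G c p p S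
  | own (S : Finset V) (v : V) : c v = p → Playable G S v → Wins G c p (!p) (insert v S) → Wins G c p p S
  | opp (S : Finset V) : (∃ v, c v = !p ∧ Playable G S v) →
      (∀ v, c v = !p → Playable G S v → Wins G c p p (insert v S)) → Wins G c p (!p) S

/-- The winner is decided by comparing the numbers `α` (of Alice) and `β` (of Bob): if Alice moves first, Alice wins
exactly if `α ≤ β` and Bob exactly if `β < α`; if Bob moves first, Bob wins exactly if `β ≤ α` and Alice exactly if
`α < β`. -/
def DecidedBy {V : Type} [DecidableEq V] (G : SimpleGraph V) (c : V → Bool) (α β : ℕ) : Prop :=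
  ((Wins G c true true ∅ ↔ α ≤ β) ∧ (Wins G c false true ∅ ↔ β < α)) ∧
    ((Wins G c false false ∅ ↔ β ≤ α) ∧ (Wins G c true false ∅ ↔ α < β))

/-- The colour of run `i`, if run `0` has the colour `e`: the colours alternate. -/
def runColour (e : Bool) (i : ℕ) : Bool := if i % 2 = 0 then e else !e

/-- The colouring `c` of the path `0, 1, ..., n - 1` has the `r` runs `{v | s i ≤ v < s (i + 1)}`, `i < r`; all have
length at least `4`, and all but the first and the last one have length at least `7`. -/
structure PathRuns (n r : ℕ) (s : ℕ → ℕ) (e : Bool) (c : Fin n → Bool) : Prop where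
  pos : 0 < r
  start : s 0 = 0
  stop : s r = n
  len_end : ∀ i < r, s i + 4 ≤ s (i + 1)
  len : ∀ i, 0 < i → i + 1 < r → s i + 7 ≤ s (i + 1)
  colour : ∀ i < r, ∀ v : Fin n, s i ≤ v.val → v.val < s (i + 1) → c v = runColour e i

/-- The colouring `c` of the cycle `0, 1, ..., n - 1, 0` has the `r ≥ 2` runs `{v | s i ≤ v < s (i + 1)}`, `i < r`
(`r` is even; the vertices are numbered such that a run begins at `0`), all of length at least `7`. -/
structure CycleRuns (n r : ℕ) (s : ℕ → ℕ) (e : Bool) (c : Fin n → Bool) : Prop where
  pos : 0 < r
  even : r % 2 = 0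
  start : s 0 = 0
  stop : s r = n
  len : ∀ i < r, s i + 7 ≤ s (i + 1)
  colour : ∀ i < r, ∀ v : Fin n, s i ≤ v.val → v.val < s (i + 1) → c v = runColour e i

/-- The number of the borders of run `i` with other runs, on a path with `r` runs. -/
def borders (r i : ℕ) : ℕ := (if 0 < i then 1 else 0) + (if i + 1 < r then 1 else 0)

/-- The sum of `⌈(length + borders) / 3⌉` over the runs of colour `q` of a path. -/
def pathCount (r : ℕ) (s : ℕ → ℕ) (e q : Bool) : ℕ :=
  ∑ i ∈ (Finset.range r).filter (fun i => runColour e i = q), (s (i + 1) - s i + borders r i + 2) / 3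

/-- The sum of `⌈(length + 2) / 3⌉` over the runs of colour `q` of a cycle. -/
def cycleCount (r : ℕ) (s : ℕ → ℕ) (e q : Bool) : ℕ :=
  ∑ i ∈ (Finset.range r).filter (fun i => runColour e i = q), (s (i + 1) - s i + 2 + 2) / 3

section bridge

variable {V : Type} [DecidableEq V] {G : SimpleGraph V} {c : V → Bool}

theorem wins_of {p m : Bool} {S : Finset V} (h : Pool.Agent.helper44.MDG.Wins G c p m S) : Wins G c p m S := by
  induction h with
  | done S h => exact Wins.done S h
  | own S v h1 h2 _ ih => exact Wins.own S v h1 h2 ih
  | opp S h1 _ ih => exact Wins.opp S h1 ih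

theorem of_wins {p m : Bool} {S : Finset V} (h : Wins G c p m S) : Pool.Agent.helper44.MDG.Wins G c p m S := by
  induction h with
  | done S h => exact Pool.Agent.helper44.MDG.Wins.done S h
  | own S v h1 h2 _ ih => exact Pool.Agent.helper44.MDG.Wins.own S v h1 h2 ih
  | opp S h1 _ ih => exact Pool.Agent.helper44.MDG.Wins.opp S h1 ih

theorem exclusive {p m : Bool} {S : Finset V} (h : Wins G c p m S) : ¬ Wins G c (!p) m S := fun h2 =>
  Pool.Agent.helper44.MDG.EXC V G c p m S (of_wins h) (of_wins h2)

theorem decidedBy_of {α β : ℕ} (h1 : α ≤ β → Wins G c true true ∅) (h2 : α < β → Wins G c true false ∅)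
    (h3 : β ≤ α → Wins G c false false ∅) (h4 : β < α → Wins G c false true ∅) : DecidedBy G c α β := by
  refine ⟨⟨⟨fun h => ?_, h1⟩, ⟨fun h => ?_, h4⟩⟩, ⟨⟨fun h => ?_, h3⟩, ⟨fun h => ?_, h2⟩⟩⟩
  · by_contra hn
    exact exclusive h (h4 (by omega))
  · by_contra hn
    exact exclusive (h1 (by omega)) h
  · by_contra hn
    exact exclusive (h2 (by omega)) h
  · by_contra hn
    exact exclusive h (h3 (by omega))

end bridge

/-- **Theorem.** The misère partizan domination game on a coloured path all of whose runs have length at least `7` (the
two end runs: at least `4`), and on a coloured cycle with at least two runs, all of length at least `7`, is decided by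
comparing the sums of `⌈(length + number of borders) / 3⌉` over the runs of Alice and over the runs of Bob: the player
with the smaller sum wins, whoever begins, and if the sums are equal the first player wins. -/
theorem result :
    (∀ (n r : ℕ) (s : ℕ → ℕ) (e : Bool) (c : Fin n → Bool), PathRuns n r s e c →
      DecidedBy (SimpleGraph.pathGraph n) c (pathCount r s e true) (pathCount r s e false)) ∧
    (∀ (n r : ℕ) (s : ℕ → ℕ) (e : Bool) (c : Fin n → Bool), CycleRuns n r s e c →
      DecidedBy (SimpleGraph.cycleGraph n) c (cycleCount r s e true) (cycleCount r s e false)) := by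
  constructor
  · intro n r s e c h
    have hR : Pool.Agent.helper44.MDG.Runs n r s e c := ⟨h.pos, h.start, h.stop, h.len_end, h.len, h.colour⟩
    have key := fun p => Pool.Agent.helper44.MDG.path_WU n r s e p c hR
    have br : ∀ p m, Pool.Agent.helper44.MDG.WU (Pool.Agent.helper44.MDG.NP n) c p m Finset.univ →
        Wins (SimpleGraph.pathGraph n) c p m ∅ := fun p m hw =>
      wins_of (Pool.Agent.helper44.MDG.BRG2 (Fin n) _ _ c p m (Pool.Agent.helper44.MDG.mem_NP n) hw)
    exact decidedBy_of (fun hl => br true true ((key true).1 hl)) (fun hl => br true false ((key true).2 hl))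
      (fun hl => br false false ((key false).1 hl)) (fun hl => br false true ((key false).2 hl))
  · intro n r s e c h
    have hR : Pool.Agent.helper44.MDG.CRuns n r s e c := ⟨h.pos, h.even, h.start, h.stop, h.len, h.colour⟩
    have hn : 3 ≤ n := by
      have h1 := h.len (r - 1) (by have := h.pos; omega)
      have h2 : r - 1 + 1 = r := by have := h.pos; omega
      rw [h2, h.stop] at h1
      omega
    have key := fun p => Pool.Agent.helper44.MDG.cycle_WU Pool.Agent.helper44.MDG.CPB2 n r s e p c hR
    have br : ∀ p m, Pool.Agent.helper44.MDG.WU (Pool.Agent.helper44.MDG.NC n) c p m Finset.univ →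
        Wins (SimpleGraph.cycleGraph n) c p m ∅ := fun p m hw =>
      wins_of (Pool.Agent.helper44.MDG.BRG2 (Fin n) _ _ c p m (Pool.Agent.helper44.MDG.mem_NC n hn) hw)
    exact decidedBy_of (fun hl => br true true ((key true).1 hl)) (fun hl => br true false ((key true).2 hl))
      (fun hl => br false false ((key false).1 hl)) (fun hl => br false true ((key false).2 hl))

end Pool.Agent.Results.MP_05a1de_lc.LongRuns
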