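import Mathlib
import Pool.Agent.helper13.MD.Small

/-!
# The misère partizan domination game on paths with at most one change of colour

The winner is determined for every path whose first `a` vertices are coloured by `A` and whose
last `b` vertices are coloured by `B` (all `a`, `b`), for both players moving first, by an explicit
rule in `a` and `b`: up to eight small cases the player to move wins exactly if the integer part of
one third of the length of the own block is at most that of the block of the opponent.
The definitions are in `Pool.Agent.helper13.MD.Def`.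
-/

set_option autoImplicit false

namespace Pool.Agent.Results.MP_05a1de_lc.TwoBlockPaths

open Pool.Agent.helper13.MD

/-- The winner of the misère partizan domination game on the path whose first `a` vertices have the
colour of Alice (`true`) and whose last `b` vertices have the colour of Bob (`false`). -/
theorem result : ∀ a b : ℕ,
    (MoverWins (SimpleGraph.pathGraph (a + b)) (twoBlock a b) true ∅ ↔ Rule a b) ∧
    (MoverWins (SimpleGraph.pathGraph (a + b)) (twoBlock a b) false ∅ ↔ Rule b a) := by
  intro a b
  rcases Nat.eq_zero_or_pos a with rfl | ha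
  · -- Alice has no vertices
    have hc : ∀ v, twoBlock 0 b v ≠ true := by
      intro v
      unfold twoBlock
      simp
    constructor
    · refine ⟨fun _ => ?_, fun _ => none hc ∅⟩
      unfold Rule
      omega
    · rcases Nat.eq_zero_or_pos b with rfl | hb
      · refine ⟨fun _ => ?_, fun _ => none (fun v => ?_) ∅⟩
        · unfold Rule
          omega
        · exact absurd v.isLt (by omega)
      · refine ⟨fun h => absurd h (none' hc ⟨0, by omega⟩), fun h => ?_⟩
        unfold Rule at h
        omega
  rcases Nat.eq_zero_or_pos b with rfl | hb
  · -- Bob has no vertices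
    have hc : ∀ v, twoBlock a 0 v ≠ false := by
      intro v
      have := v.isLt
      unfold twoBlock
      simp
    constructor
    · refine ⟨fun h => absurd h (none' hc ⟨0, by omega⟩), fun h => ?_⟩
      unfold Rule at h
      omega
    · refine ⟨fun _ => ?_, fun _ => none hc ∅⟩
      unfold Rule
      omega
  by_cases h4 : 4 ≤ a ∧ 4 ≤ b
  · rw [alice a b h4.1 h4.2, bob a b h4.1 h4.2]
    unfold Rule
    omega
  by_cases h8 : a < 8 ∧ b < 8
  · obtain ⟨h1, h2⟩ := finite a b h8.1 h8.2 ha hb (by omega)
    have hU : ∀ x, x ∈ List.range' 1 (a + b) ↔
        x ∈ UU (SimpleGraph.pathGraph (a + b)) (fun i : Fin (a + b) => i.val + 1) ∅ := by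
      intro x
      rw [UU_empty (layA a b), List.mem_range'_1, Finset.mem_Icc]
      omega
    have hf : Fintype.card (Fin (a + b)) - (∅ : Finset (Fin (a + b))).card < a + b + 1 := by
      rw [Fintype.card_fin]
      omega
    rw [← h1, ← h2]
    exact ⟨(ev_iff (layA a b) (by omega) _ true ∅ _ hU hf).symm,
      (ev_iff (layA a b) (by omega) _ false ∅ _ hU hf).symm⟩
  by_cases h3 : a ≤ 3
  · obtain ⟨h1, h2⟩ := small (b := b) ha h3 (by omega) rfl (layA a b)
    refine ⟨⟨fun _ => ?_, fun _ => h1⟩, ⟨fun h => absurd h h2, fun h => ?_⟩⟩
    · unfold Rule
      omega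
    · unfold Rule at h
      omega
  · obtain ⟨h1, h2⟩ := small (b := a) hb (by omega) (by omega) rfl (layB a b)
    refine ⟨⟨fun h => absurd h h2, fun h => ?_⟩, ⟨fun _ => ?_, fun _ => h1⟩⟩
    · unfold Rule at h
      omega
    · unfold Rule
      omega

end Pool.Agent.Results.MP_05a1de_lc.TwoBlockPaths
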